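import Pool.Agent.X63.TBLower

/-!
# Strong tree-breadth is not bounded by any function of tree-breadth

For every `R` there is a finite connected graph with tree-breadth 1 and strong tree-breadth
larger than `R`.
-/

namespace X63.TB

open SimpleGraph

/-- parent function of the decomposition tree. -/
def par' (D L : ℕ) : Vx D L → Vx D L
  | Sum.inl w => Sum.inl ⟨w.1.tail, by
      have := w.2
      rw [List.length_tail]
      omega⟩
  | Sum.inr (z, i, j, h) => if h.val = 0 then Sum.inl (up z) else
      Sum.inr (z, i, j, ⟨h.val - 1, by have := h.isLt; omega⟩)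

def rk (D L : ℕ) : Vx D L → ℕ
  | Sum.inl w => w.1.length
  | Sum.inr (_, _, _, h) => D + 1 + h.val

def root (D L : ℕ) : Vx D L := tv ⟨[], by simp⟩

theorem tree_isTree (D L : ℕ) : (parGraph (par' D L)).IsTree := by
  apply parGraph_isTree (par' D L) (rk D L) (root D L)
  · rfl
  · rintro (⟨l, hl⟩ | ⟨z, i, j, h⟩) hne
    · cases l with
      | nil => exact absurd rfl hne
      | cons a l =>
        show l.length < (a :: l).length
        simp
    · have hz := z.2
      by_cases hh : h.val = 0
      · have : par' D L (Sum.inr (z, i, j, h)) = Sum.inl (up z) := by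
          simp [par', hh]
        rw [this]
        show z.1.length < D + 1 + h.val
        omega
      · have : par' D L (Sum.inr (z, i, j, h)) =
            Sum.inr (z, i, j, ⟨h.val - 1, by have := h.isLt; omega⟩) := by
          simp [par', hh]
        rw [this]
        show D + 1 + (h.val - 1) < D + 1 + h.val
        omega

/-- the bags. -/
def bag (D L : ℕ) (x : Vx D L) : Set (Vx D L) :=
  {y | y = x ∨ (R D L x y ∧ y.isLeft) ∨ (R D L y x ∧ x.isRight)}

theorem bag_disk (D L : ℕ) (x : Vx D L) : bag D L x ⊆ disk (G D L) x 1 := by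
  intro y hy
  show (G D L).dist y x ≤ 1
  rcases hy with rfl | ⟨h, -⟩ | ⟨h, -⟩
  · simp
  · have h1 : (G D L).Adj y x := Or.inr h
    exact (dist_eq_one_iff_adj.mpr h1).le
  · have h1 : (G D L).Adj y x := Or.inl h
    exact (dist_eq_one_iff_adj.mpr h1).le

theorem bag_decomp (D L : ℕ) : IsTreeDecomp (G D L) (parGraph (par' D L)) (bag D L) := by
  refine ⟨tree_isTree D L, fun v => ⟨v, Or.inl rfl⟩, ?_, ?_⟩
  · have key : ∀ u v, R D L u v → ∃ t, u ∈ bag D L t ∧ v ∈ bag D L t := by
      rintro (u | ⟨z, i, j, h⟩) (w | ⟨z', i', j', h'⟩) hab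
      · exact ⟨Sum.inl u, Or.inl rfl, Or.inr (Or.inl ⟨hab, rfl⟩)⟩
      · exact hab.elim
      · exact ⟨_, Or.inl rfl, Or.inr (Or.inl ⟨hab, rfl⟩)⟩
      · exact ⟨_, Or.inr (Or.inr ⟨hab, rfl⟩), Or.inl rfl⟩
    intro u v huv
    rcases huv with h | h
    · exact key u v h
    · obtain ⟨t, h1, h2⟩ := key v u h
      exact ⟨t, h2, h1⟩
  · rintro (⟨l, hl⟩ | ⟨z, i, j, h⟩)
    · cases l with
      | nil =>
        refine star_connected (root D L) (Or.inl rfl) ?_
        rintro (u | ⟨z', i', j', h'⟩) ht
        · rcases ht with ht | ⟨ht, -⟩ | ⟨-, ht⟩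
          · exact Or.inl ht.symm
          · obtain ⟨z, a, -, h2⟩ := ht
            exfalso
            have := congrArg (fun x => x.1.length) h2
            simp [ch] at this
          · exact absurd ht (by simp)
        · rcases ht with ht | ⟨ht, -⟩ | ⟨ht, -⟩
          · exact Or.inl ht.symm
          · obtain ⟨-, h2⟩ := ht
            exfalso
            rcases h2 with h2 | h2
            · have := congrArg (fun x => x.1.length) h2
              simp [ch] at this
            · have := congrArg (fun x => x.1.length) h2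
              simp [ch] at this
          · exact ht.elim
      | cons a l =>
        have hl' : l.length < D := by simpa using hl
        set z : IV D := ⟨l, hl'⟩ with hz
        have hch : (⟨a :: l, hl⟩ : TV D) = ch z a := rfl
        rw [hch]
        have huniq : ∀ (z' : IV D) (b : Fin 6), ch z a = ch z' b → z = z' := by
          intro z' b hb
          have := congrArg Subtype.val hb
          exact Subtype.ext (List.cons.inj this).2
        refine star_connected (tv (up z)) (Or.inr (Or.inl ⟨⟨z, a, rfl, rfl⟩, rfl⟩)) ?_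
        rintro (u | ⟨z', i', j', h'⟩) ht
        · rcases ht with ht | ⟨ht, -⟩ | ⟨-, ht⟩
          · right
            have hu : u = ch z a := (Sum.inl_injective ht).symm
            rw [hu]
            refine ⟨?_, Or.inr rfl⟩
            intro he
            have := congrArg (fun x => x.1.length) (Sum.inl_injective he)
            simp [ch, up] at this
          · left
            obtain ⟨z', b, h1, h2⟩ := ht
            rw [h1, huniq z' b h2]
          · exact absurd ht (by simp)
        · rcases ht with ht | ⟨ht, -⟩ | ⟨ht, -⟩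
          · exact absurd ht (by simp)
          · right
            obtain ⟨h0, h2⟩ := ht
            have hzz : z = z' := by
              rcases h2 with h2 | h2
              · exact huniq _ _ h2
              · exact huniq _ _ h2
            refine ⟨by simp, Or.inr ?_⟩
            rw [← hzz]
            simp [par', h0]
          · exact ht.elim
    · refine star_connected (hv z i j h) (Or.inl rfl) ?_
      rintro (u | ⟨z', i', j', h'⟩) ht
      · rcases ht with ht | ⟨-, ht⟩ | ⟨-, ht⟩
        · exact absurd ht (by simp)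
        · exact absurd ht (by simp)
        · exact absurd ht (by simp)
      · rcases ht with ht | ⟨-, ht⟩ | ⟨ht, -⟩
        · exact Or.inl ht.symm
        · exact absurd ht (by simp)
        · right
          obtain ⟨rfl, rfl, rfl, hh⟩ := ht
          refine ⟨?_, Or.inr ?_⟩
          · intro he
            have h4 := congrArg (fun x => rk D L x) he
            simp only [rk] at h4
            omega
          · simp [par', hh]

theorem tb_le_one (D L : ℕ) : tb (G D L) ≤ 1 :=
  Nat.sInf_le ⟨Vx D L, inferInstance, parGraph (par' D L), bag D L, bag_decomp D L,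
    fun t => ⟨t, bag_disk D L t⟩⟩

theorem tb_eq_one (D L : ℕ) (hD : 0 < D) : tb (G D L) = 1 := by
  refine le_antisymm (tb_le_one D L) ?_
  by_contra hlt
  have h0 : tb (G D L) = 0 := by omega
  have hne : {r : ℕ | ∃ (ι : Type) (_ : Finite ι) (T : SimpleGraph ι) (B : ι → Set (Vx D L)),
      IsTreeDecomp (G D L) T B ∧ ∀ t, ∃ v : Vx D L, B t ⊆ disk (G D L) v r}.Nonempty :=
    ⟨1, Vx D L, inferInstance, parGraph (par' D L), bag D L, bag_decomp D L,
      fun t => ⟨t, bag_disk D L t⟩⟩
  have h1 := Nat.sInf_mem hne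
  unfold tb at h0
  rw [h0] at h1
  obtain ⟨ι, _, T, B, hd, hB⟩ := h1
  have z : IV D := ⟨[], hD⟩
  have hadj := adj_ch (L := L) z 0
  obtain ⟨t, h2, h3⟩ := hd.edge _ _ hadj
  obtain ⟨v, hv⟩ := hB t
  have h4 : (G D L).dist (tv (up z)) v ≤ 0 := hv h2
  have h5 : (G D L).dist (tv (ch z 0)) v ≤ 0 := hv h3
  have h6 : (G D L).dist (tv (up z)) v = 0 := Nat.le_zero.mp h4
  have h7 : (G D L).dist (tv (ch z 0)) v = 0 := Nat.le_zero.mp h5
  rw [(G_connected D L).dist_eq_zero_iff] at h6 h7
  rw [h6, h7] at hadj
  exact (G D L).irrefl hadj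

theorem stb_gt (R : ℕ) : R < stb (G (R + 2) R) := by
  have hne := exists_strong (G (R + 2) R) (G_connected (R + 2) R)
  have h1 : stb (G (R + 2) R) ∈ {r : ℕ | ∃ (ι : Type) (_ : Finite ι) (T : SimpleGraph ι)
      (B : ι → Set (Vx (R + 2) R)), IsTreeDecomp (G (R + 2) R) T B ∧
        ∀ t, ∃ v ∈ B t, B t = disk (G (R + 2) R) v r} := Nat.sInf_mem hne
  obtain ⟨ι, _, T, B, hd, hB⟩ := h1
  by_contra hlt
  exact no_strong R _ (not_lt.mp hlt) ι T B hd hB

end X63.TB

namespace Pool.Agent.Results.MP_3ffbec_co.StrongUnbounded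

open X63.TB

/-- There is no constant `c` with `stb(G) ≤ c tb(G)` for all graphs; in fact graphs of tree-breadth
`1` have unbounded strong tree-breadth. -/
theorem result :
    (∀ c : ℝ, ∃ (V : Type) (_ : Fintype V) (G : SimpleGraph V), G.Connected ∧
      c * (tb G : ℝ) < (stb G : ℝ)) ∧
    (∀ R : ℕ, ∃ (V : Type) (_ : Fintype V) (G : SimpleGraph V), G.Connected ∧
      tb G = 1 ∧ R < stb G) := by
  have key : ∀ R : ℕ, ∃ (V : Type) (_ : Fintype V) (G : SimpleGraph V), G.Connected ∧
      tb G = 1 ∧ R < stb G := fun R =>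
    ⟨Vx (R + 2) R, Fintype.ofFinite _, G (R + 2) R, G_connected _ _, tb_eq_one _ _ (by omega),
      stb_gt R⟩
  refine ⟨fun c => ?_, key⟩
  obtain ⟨R, hR⟩ := exists_nat_gt c
  obtain ⟨V, hV, G, h1, h2, h3⟩ := key R
  refine ⟨V, hV, G, h1, ?_⟩
  rw [h2]
  have h4 : (R : ℝ) < (stb G : ℝ) := by exact_mod_cast h3
  rw [Nat.cast_one, mul_one]
  exact hR.trans h4

end Pool.Agent.Results.MP_3ffbec_co.StrongUnbounded
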